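import Pool.Agent.MP_d5eec5_gt.H77.GBasic

/-! Bookkeeping for the removal of points from a placement. -/

set_option autoImplicit false

namespace Pool.Agent.MP_d5eec5_gt.H77

open Pool.Agent.MP_d5eec5_gt.H48 Finset

theorem split_X_succ (m : ℕ) (p : ℕ → ℚ) : X (m + 1) p = X m p + ∑ i ∈ range (m + 1),
    if i % 2 = (m + 1) % 2 then c1 (p i) (p (i + 1)) (p (m + 1)) (p (m + 2)) else 0 := by
  unfold X
  rw [sum_range_succ]

theorem split_one (m : ℕ) (p : ℕ → ℚ) :
    (∑ k ∈ range (m + 1 + 1), if k % 2 = (m + 1 + 1) % 2 then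
      c1 (p k) (p (k + 1)) (p (m + 1 + 1)) (p (m + 1 + 2)) else 0) +
      (if m % 2 = 1 then c1 (p 0) (p 2) (p (m + 2)) (p (m + 3)) else 0) =
    (∑ k ∈ range (m + 1), if k % 2 = (m + 1) % 2 then
      c1 (drop1 p k) (drop1 p (k + 1)) (drop1 p (m + 1)) (drop1 p (m + 2)) else 0) +
      if m % 2 = 1 then c1 (p 1) (p 2) (p (m + 2)) (p (m + 3))
      else c1 (p 0) (p 1) (p (m + 2)) (p (m + 3)) := by
  rw [sum_range_succ' _ (m + 1), sum_range_succ' _ m, sum_range_succ' _ m]
  have e : ∑ k ∈ range m, (if (k + 1 + 1) % 2 = (m + 1 + 1) % 2 then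
      c1 (p (k + 1 + 1)) (p (k + 1 + 1 + 1)) (p (m + 1 + 1)) (p (m + 1 + 2)) else 0) =
      ∑ k ∈ range m, (if (k + 1) % 2 = (m + 1) % 2 then
      c1 (drop1 p (k + 1)) (drop1 p (k + 1 + 1)) (drop1 p (m + 1)) (drop1 p (m + 2)) else 0) := by
    refine sum_congr rfl fun k _ => ?_
    refine if_congr (by omega) ?_ rfl
    simp [drop1]
  rw [e]
  have d0 : drop1 p 0 = p 0 := by simp [drop1]
  have d1 : drop1 p (0 + 1) = p 2 := by simp [drop1]
  have d2 : drop1 p (m + 1) = p (m + 2) := by simp [drop1]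
  have d3 : drop1 p (m + 2) = p (m + 3) := by simp [drop1]
  rw [d0, d1, d2, d3]
  rcases Nat.mod_two_eq_zero_or_one m with h | h
  · have h1 : ¬ m % 2 = 1 := by omega
    have h2 : ¬ (0 + 1) % 2 = (m + 1 + 1) % 2 := by omega
    have h3 : 0 % 2 = (m + 1 + 1) % 2 := by omega
    have h4 : ¬ 0 % 2 = (m + 1) % 2 := by omega
    rw [if_neg h1, if_neg h1, if_neg h2, if_pos h3, if_neg h4]
    simp only [zero_add, show m + 1 + 1 = m + 2 from rfl, show m + 1 + 2 = m + 3 from rfl]
    omega
  · have h2 : (0 + 1) % 2 = (m + 1 + 1) % 2 := by omega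
    have h3 : ¬ 0 % 2 = (m + 1 + 1) % 2 := by omega
    have h4 : 0 % 2 = (m + 1) % 2 := by omega
    rw [if_pos h, if_pos h, if_pos h2, if_neg h3, if_pos h4]
    simp only [zero_add, show m + 1 + 1 = m + 2 from rfl, show m + 1 + 2 = m + 3 from rfl,
      show 1 + 1 = 2 from rfl]
    omega

theorem split1 : StmtSplit1 := by
  intro m p
  induction m with
  | zero => simp [X, sum_range_succ]
  | succ m ih =>
    have := split_one m p
    rw [split_X_succ (m + 1), split_X_succ m (drop1 p),
      sum_range_succ (fun k => if k % 2 = 1 then c1 (p 0) (p 2) (p (k + 2)) (p (k + 3)) else 0),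
      sum_range_succ (fun k => if k % 2 = 1 then c1 (p 1) (p 2) (p (k + 2)) (p (k + 3))
        else c1 (p 0) (p 1) (p (k + 2)) (p (k + 3)))]
    omega

theorem split_lo {i k : ℕ} (p : ℕ → ℚ) (h : k ≤ i) : drop2 i p k = p k := by
  simp [drop2, h]

theorem split_hi {i k : ℕ} (p : ℕ → ℚ) (h : i < k) : drop2 i p k = p (k + 2) := by
  simp [drop2, not_le.2 h]

theorem split_base (i : ℕ) (p : ℕ → ℚ) (hp : Set.InjOn p (Set.Iic (i + 3))) :
    X (i + 2) p + ∑ k ∈ range i,
      (if k % 2 = i % 2 then c1 (p i) (p (i + 3)) (drop2 i p k) (drop2 i p (k + 1)) else 0) =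
    X i (drop2 i p) + c1 (p i) (p (i + 1)) (p (i + 2)) (p (i + 3)) +
      ∑ k ∈ range i,
        if k % 2 = i % 2 then
          c1 (p i) (p (i + 1)) (drop2 i p k) (drop2 i p (k + 1)) +
            c1 (p (i + 2)) (p (i + 3)) (drop2 i p k) (drop2 i p (k + 1))
        else c1 (p (i + 1)) (p (i + 2)) (drop2 i p k) (drop2 i p (k + 1)) := by
  have ne : ∀ a b, a ≤ i + 3 → b ≤ i + 3 → a ≠ b → p a ≠ p b :=
    fun a b ha hb hab e => hab (hp ha hb e)
  have sy : ∀ a b k, a ≤ i + 3 → b ≤ i + 3 → k < i → k + 1 < a → k + 1 < b →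
      c1 (p a) (p b) (p k) (p (k + 1)) = c1 (p k) (p (k + 1)) (p a) (p b) :=
    fun a b k ha hb hk h1 h2 => c1_symm (ne _ _ ha (by omega) (by omega))
      (ne _ _ ha (by omega) (by omega)) (ne _ _ hb (by omega) (by omega))
      (ne _ _ hb (by omega) (by omega))
  unfold X
  rw [sum_range_succ _ (i + 2), sum_range_succ _ (i + 1), sum_range_succ _ i,
    sum_range_succ _ i, sum_range_succ _ (i + 1), sum_range_succ _ i, sum_range_succ _ i]
  rw [if_neg (show ¬ i % 2 = (i + 1) % 2 by omega), if_pos (show i % 2 = (i + 2) % 2 by omega),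
    if_neg (show ¬ (i + 1) % 2 = (i + 2) % 2 by omega)]
  have e1 : ∑ j ∈ range i, ∑ k ∈ range j, (if k % 2 = j % 2 then
      c1 (drop2 i p k) (drop2 i p (k + 1)) (drop2 i p j) (drop2 i p (j + 1)) else 0) =
      ∑ j ∈ range i, ∑ k ∈ range j, (if k % 2 = j % 2 then
      c1 (p k) (p (k + 1)) (p j) (p (j + 1)) else 0) := by
    refine sum_congr rfl fun j hj => sum_congr rfl fun k hk => ?_
    have := mem_range.1 hj
    have := mem_range.1 hk
    rw [split_lo p (show k ≤ i by omega), split_lo p (show k + 1 ≤ i by omega),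
      split_lo p (show j ≤ i by omega), split_lo p (show j + 1 ≤ i by omega)]
  have e2 : ∑ k ∈ range i, (if k % 2 = i % 2 then
      c1 (drop2 i p k) (drop2 i p (k + 1)) (drop2 i p i) (drop2 i p (i + 1)) else 0) =
      ∑ k ∈ range i, (if k % 2 = i % 2 then
        c1 (p i) (p (i + 3)) (drop2 i p k) (drop2 i p (k + 1)) else 0) := by
    refine sum_congr rfl fun k hk => ?_
    have := mem_range.1 hk
    split_ifs with h
    · rw [split_lo p (show k ≤ i by omega), split_lo p (show k + 1 ≤ i by omega),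
        split_lo p le_rfl, split_hi p (show i < i + 1 by omega),
        sy i (i + 3) k (by omega) le_rfl this (by omega) (by omega)]
    · rfl
  have e3 : ∑ k ∈ range i, (if k % 2 = i % 2 then
          c1 (p i) (p (i + 1)) (drop2 i p k) (drop2 i p (k + 1)) +
            c1 (p (i + 2)) (p (i + 3)) (drop2 i p k) (drop2 i p (k + 1))
        else c1 (p (i + 1)) (p (i + 2)) (drop2 i p k) (drop2 i p (k + 1))) =
      ∑ k ∈ range i, ((if k % 2 = i % 2 then c1 (p k) (p (k + 1)) (p i) (p (i + 1)) else 0) +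
        (if k % 2 = (i + 1) % 2 then c1 (p k) (p (k + 1)) (p (i + 1)) (p (i + 1 + 1)) else 0) +
        (if k % 2 = (i + 2) % 2 then c1 (p k) (p (k + 1)) (p (i + 2)) (p (i + 2 + 1)) else 0)) := by
    refine sum_congr rfl fun k hk => ?_
    have := mem_range.1 hk
    rw [split_lo p (show k ≤ i by omega), split_lo p (show k + 1 ≤ i by omega)]
    by_cases h : k % 2 = i % 2
    · rw [if_pos h, if_pos h, if_neg (by omega), if_pos (by omega),
        sy i (i + 1) k (by omega) (by omega) this (by omega) (by omega),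
        sy (i + 2) (i + 3) k (by omega) (by omega) this (by omega) (by omega), add_zero]
    · rw [if_neg h, if_neg h, if_pos (by omega), if_neg (by omega),
        sy (i + 1) (i + 2) k (by omega) (by omega) this (by omega) (by omega), add_zero, zero_add]
  rw [e1, e2, e3, sum_add_distrib, sum_add_distrib]
  simp only [show i + 2 + 1 = i + 3 from rfl]
  omega

theorem split_step (i t : ℕ) (p : ℕ → ℚ) :
    (∑ k ∈ range (i + t + 2 + 1), if k % 2 = (i + t + 2 + 1) % 2 then
      c1 (p k) (p (k + 1)) (p (i + t + 2 + 1)) (p (i + t + 2 + 2)) else 0) +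
      (if (i + t + 1) % 2 = i % 2 then
        c1 (p i) (p (i + 3)) (drop2 i p (i + t + 1)) (drop2 i p (i + t + 1 + 1)) else 0) =
    (∑ k ∈ range (i + t + 1), if k % 2 = (i + t + 1) % 2 then
      c1 (drop2 i p k) (drop2 i p (k + 1)) (drop2 i p (i + t + 1)) (drop2 i p (i + t + 2)) else 0) +
      if (i + t + 1) % 2 = i % 2 then
          c1 (p i) (p (i + 1)) (drop2 i p (i + t + 1)) (drop2 i p (i + t + 1 + 1)) +
            c1 (p (i + 2)) (p (i + 3)) (drop2 i p (i + t + 1)) (drop2 i p (i + t + 1 + 1))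
        else c1 (p (i + 1)) (p (i + 2)) (drop2 i p (i + t + 1)) (drop2 i p (i + t + 1 + 1)) := by
  rw [split_hi p (show i < i + t + 1 by omega), split_hi p (show i < i + t + 1 + 1 by omega),
    show i + t + 1 + 2 = i + t + 3 from rfl, show i + t + 1 + 1 + 2 = i + t + 4 from rfl,
    show i + t + 2 + 2 = i + t + 4 from rfl, show i + t + 2 + 1 = i + t + 3 from rfl]
  rw [show range (i + t + 3) = range (i + 3 + t) by congr 1; omega,
    show range (i + t + 1) = range (i + 1 + t) by congr 1; omega,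
    sum_range_add _ (i + 3) t, sum_range_add _ (i + 1) t, sum_range_succ _ (i + 2),
    sum_range_succ _ (i + 1), sum_range_succ _ i, sum_range_succ _ i]
  have e1 : ∑ k ∈ range i, (if k % 2 = (i + t + 1) % 2 then
      c1 (drop2 i p k) (drop2 i p (k + 1)) (p (i + t + 3)) (p (i + t + 4)) else 0) =
      ∑ k ∈ range i, (if k % 2 = (i + t + 3) % 2 then
      c1 (p k) (p (k + 1)) (p (i + t + 3)) (p (i + t + 4)) else 0) := by
    refine sum_congr rfl fun k hk => ?_
    have := mem_range.1 hk
    rw [split_lo p (show k ≤ i by omega), split_lo p (show k + 1 ≤ i by omega)]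
    exact if_congr (by omega) rfl rfl
  have e2 : ∑ k ∈ range t, (if (i + 1 + k) % 2 = (i + t + 1) % 2 then
      c1 (drop2 i p (i + 1 + k)) (drop2 i p (i + 1 + k + 1)) (p (i + t + 3)) (p (i + t + 4))
      else 0) =
      ∑ k ∈ range t, (if (i + 3 + k) % 2 = (i + t + 3) % 2 then
      c1 (p (i + 3 + k)) (p (i + 3 + k + 1)) (p (i + t + 3)) (p (i + t + 4)) else 0) := by
    refine sum_congr rfl fun k _ => ?_
    rw [split_hi p (show i < i + 1 + k by omega), split_hi p (show i < i + 1 + k + 1 by omega),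
      show i + 1 + k + 2 = i + 3 + k by omega, show i + 1 + k + 1 + 2 = i + 3 + k + 1 by omega]
    exact if_congr (by omega) rfl rfl
  rw [e1, e2, split_lo p le_rfl, split_hi p (show i < i + 1 by omega)]
  by_cases h : (i + t + 1) % 2 = i % 2
  · rw [if_pos h, if_pos h, if_pos (show i % 2 = (i + t + 3) % 2 by omega),
      if_neg (show ¬ (i + 1) % 2 = (i + t + 3) % 2 by omega),
      if_pos (show (i + 2) % 2 = (i + t + 3) % 2 by omega),
      if_pos (show i % 2 = (i + t + 1) % 2 by omega)]
    simp only [show i + 2 + 1 = i + 3 from rfl]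
    omega
  · rw [if_neg h, if_neg h, if_neg (show ¬ i % 2 = (i + t + 3) % 2 by omega),
      if_pos (show (i + 1) % 2 = (i + t + 3) % 2 by omega),
      if_neg (show ¬ (i + 2) % 2 = (i + t + 3) % 2 by omega),
      if_neg (show ¬ i % 2 = (i + t + 1) % 2 by omega)]
    simp only [show i + 1 + 1 = i + 2 from rfl]
    omega

theorem split2 : StmtSplit2 := by
  intro m i p hp hi
  obtain ⟨t, rfl⟩ := Nat.exists_eq_add_of_le hi
  induction t with
  | zero =>
    have e : (range (i + 0 + 1)).erase i = range i := by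
      ext k; simp only [mem_erase, mem_range]; omega
    rw [e]
    exact split_base i p hp
  | succ t ih =>
    have ih := ih (hp.mono fun k hk => by
      simp only [Set.mem_Iic] at hk ⊢; omega) (by omega)
    have e : (range (i + (t + 1) + 1)).erase i = insert (i + t + 1) ((range (i + t + 1)).erase i) := by
      ext k; simp only [mem_erase, mem_range, mem_insert]; omega
    have hn : i + t + 1 ∉ (range (i + t + 1)).erase i := by simp
    rw [e, sum_insert hn, sum_insert hn, show i + (t + 1) + 2 = i + t + 2 + 1 from rfl,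
      show i + (t + 1) = i + t + 1 from rfl, split_X_succ (i + t + 2), split_X_succ (i + t)]
    have := split_step i t p
    omega

end Pool.Agent.MP_d5eec5_gt.H77
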